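import Pool.Agent.H77.GL.Gl
import Pool.Agent.H1.PN.Sw

/-!
# H77-GL-INT: good places for the primes in an interval

* `gl`: for `Y ≥ Y₀` there are local data `L` and Frobenius elements `Fr` such that for all finite `p`-groups `H` of order at most `M`, all honest
  `φ : Gal(Ω/K) →* H`, all bounded `h : H → ℂ` the sum over the primes `w` outside `S0` and `T` with `x' < nm w ≤ x` (all, or those of prime norm) of
  `h (φ (Fr.F w)) - av φ h (φ (Fr.F w))` is at most `C' x^(3/4) + (log Y)^C'`.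
-/

set_option autoImplicit false
set_option linter.dupNamespace false

open scoped NumberField
open IsDedekindDomain
open scoped Classical

noncomputable section

namespace H77.GL

open H63.MA H38.BB H38.BG H57.PC H57.BRA H77.WD H57.AN

variable {K : Type} [Field K] [NumberField K] {Ω : Type} [Field Ω] [Algebra K Ω]
  {p : ℕ} {ζ : K}

/-- the primes in an interval, all (`b = false`) or those of prime norm (`b = true`) -/
def PI (K : Type) [Field K] [NumberField K] (x' x : ℝ) (b : Bool) : Finset (Pl K) :=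
  (PB K x).filter fun w => x' < nm w ∧ (b = true → (nm w).Prime)

theorem gl [IsAlgClosure K Ω] (hp : p.Prime) (hζ : IsPrimitiveRoot ζ p) (D : RD0 K p ζ)
    (M C : ℕ) : ∃ (C' : ℕ) (Y₀ : ℝ), ∀ Y : ℝ, Y₀ ≤ Y → ∃ (L : LDs D Ω) (Fr : FR L),
      ∀ (H : Type) [Group H] [Finite H], IsPGroup p H → Nat.card H ≤ M →
        ∀ (φ : Gal(Ω/K) →* H) (T : Finset (Pl K)), Hon L T φ →
          ∏ v ∈ T, (nm v : ℝ) ≤ Y ^ C → ∀ h : H → ℂ, (∀ y, ‖h y‖ ≤ 1) →
            ∀ (x' x : ℝ) (b : Bool), 0 ≤ x → x ≤ Y ^ C →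
              ‖∑ w ∈ (PI K x' x b).filter (fun w => w ∉ D.S0 ∧ w ∉ T),
                (h (φ (Fr.F w)) - av φ h (φ (Fr.F w)))‖ ≤
                  C' * x ^ (3 / 4 : ℝ) + Real.log Y ^ C' := by
  obtain ⟨C₁, Y₁, hgl⟩ := gl_fam (Ω := Ω) hp hζ D M (2 * C + 3)
  obtain ⟨n, hn⟩ : ∃ n : ℕ, n = Module.finrank ℚ K := ⟨_, rfl⟩
  refine ⟨C₁ * (n + 1) + C₁, max Y₁ 3, fun Y hY => ?_⟩
  have hY1 : Y₁ ≤ Y := (le_max_left _ _).trans hY
  have hY3 : 3 ≤ Y := (le_max_right _ _).trans hY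
  have hYC : 1 ≤ Y ^ C := one_le_pow₀ (by linarith)
  have hlog : 1 ≤ Real.log Y := by
    rw [Real.le_log_iff_exp_le (by linarith)]
    exact Real.exp_one_lt_three.le.trans hY3
  obtain ⟨m, hm⟩ : ∃ m : ℕ, m = ⌊Y ^ C⌋₊ + 1 := ⟨_, rfl⟩
  obtain ⟨𝒜, h𝒜⟩ : ∃ 𝒜 : Finset (Finset (Pl K)), 𝒜 =
    ((Finset.range m ×ˢ Finset.range m) ×ˢ (Finset.univ : Finset Bool)).image
      fun z => PI K (z.1.1 : ℝ) (z.1.2 : ℝ) z.2 := ⟨_, rfl⟩
  have hm2 : (m : ℝ) ≤ 2 * Y ^ C := by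
    rw [hm]
    push_cast
    have := Nat.floor_le (by linarith : (0 : ℝ) ≤ Y ^ C)
    linarith
  have hcard : (𝒜.card : ℝ) ≤ Y ^ (2 * C + 3) := by
    have h1 : 𝒜.card ≤ m * m * 2 := by
      rw [h𝒜]
      refine Finset.card_image_le.trans (le_of_eq ?_)
      rw [Finset.card_product, Finset.card_product, Finset.card_range, Finset.card_univ,
        Fintype.card_bool]
    calc (𝒜.card : ℝ) ≤ ((m * m * 2 : ℕ) : ℝ) := by exact_mod_cast h1
      _ = (m : ℝ) * m * 2 := by push_cast; ring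
      _ ≤ (2 * Y ^ C) * (2 * Y ^ C) * 2 := by
          refine mul_le_mul_of_nonneg_right ?_ (by norm_num)
          exact mul_le_mul hm2 hm2 (Nat.cast_nonneg _) (by positivity)
      _ = 8 * (Y ^ C * Y ^ C) := by ring
      _ ≤ Y ^ 3 * (Y ^ C * Y ^ C) := by
          refine mul_le_mul_of_nonneg_right ?_ (by positivity)
          calc (8 : ℝ) ≤ 3 ^ 3 := by norm_num
            _ ≤ Y ^ 3 := pow_le_pow_left₀ (by norm_num) hY3 _
      _ = _ := by ring
  obtain ⟨L, Fr, hL⟩ := hgl Y hY1 𝒜 hcard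
  refine ⟨L, Fr, fun H _ _ hH hM φ T hT hTn h hh x' x b hx0 hx => ?_⟩
  have hlog0 : (0 : ℝ) ≤ Real.log Y := by linarith
  have hx34 : 0 ≤ x ^ (3 / 4 : ℝ) := Real.rpow_nonneg hx0 _
  have hTn' : ∏ v ∈ T, (nm v : ℝ) ≤ Y ^ (2 * C + 3) :=
    hTn.trans (pow_le_pow_right₀ (by linarith) (by omega))
  -- the set is in the family
  have hmem : PI K x' x b = ∅ ∨ PI K x' x b ∈ 𝒜 := by
    by_cases hxx : x' ≤ x
    · right
      rw [h𝒜, Finset.mem_image]
      refine ⟨((⌊x'⌋₊, ⌊x⌋₊), b), ?_, ?_⟩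
      · rw [Finset.mem_product, Finset.mem_product, Finset.mem_range, Finset.mem_range, hm]
        have h1 := Nat.floor_le_floor (hxx.trans hx)
        have h2 := Nat.floor_le_floor hx
        refine ⟨⟨?_, ?_⟩, Finset.mem_univ _⟩
        · change ⌊x'⌋₊ < ⌊Y ^ C⌋₊ + 1
          omega
        · change ⌊x⌋₊ < ⌊Y ^ C⌋₊ + 1
          omega
      · ext w
        unfold PI
        rw [Finset.mem_filter, Finset.mem_filter, mem_PB, mem_PB]
        have h1 : nm w ≠ 0 := (zero_lt_one.trans (one_lt_nm w)).ne'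
        refine and_congr ?_ (and_congr ?_ Iff.rfl)
        · change (nm w : ℝ) ≤ ((⌊x⌋₊ : ℕ) : ℝ) ↔ _
          rw [Nat.cast_le, Nat.le_floor_iff hx0]
        · change ((⌊x'⌋₊ : ℕ) : ℝ) < (nm w : ℝ) ↔ _
          rw [Nat.cast_lt, Nat.floor_lt' h1]
    · left
      rw [Finset.eq_empty_iff_forall_notMem]
      intro w hw
      unfold PI at hw
      rw [Finset.mem_filter, mem_PB] at hw
      exact hxx (hw.2.1.le.trans hw.1)
  have hrhs : 0 ≤ ((C₁ * (n + 1) + C₁ : ℕ) : ℝ) * x ^ (3 / 4 : ℝ) +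
      Real.log Y ^ (C₁ * (n + 1) + C₁) := by positivity
  rcases hmem with h0 | h0
  · rw [h0, Finset.filter_empty, Finset.sum_empty, norm_zero]
    exact hrhs
  · refine (hL H hH hM φ T hT hTn' h hh _ h0).trans ?_
    have h1 : ((PI K x' x b).card : ℝ) ≤ (n + 1) * x := by
      have h2 : ((PI K x' x b).card : ℝ) ≤ ((PB K x).card : ℝ) := by
        exact_mod_cast Finset.card_filter_le _ _
      have h3 := H1.PN.pb_card (L := K) x hx0
      rw [← hn] at h3
      refine (h2.trans h3).trans ?_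
      exact mul_le_mul_of_nonneg_right (by linarith) hx0
    have h4 : ((PI K x' x b).card : ℝ) ^ (3 / 4 : ℝ) ≤ (n + 1) * x ^ (3 / 4 : ℝ) := by
      refine (Real.rpow_le_rpow (Nat.cast_nonneg _) h1 (by norm_num)).trans ?_
      rw [Real.mul_rpow (by positivity) hx0]
      refine mul_le_mul_of_nonneg_right ?_ hx34
      calc ((n : ℝ) + 1) ^ (3 / 4 : ℝ) ≤ ((n : ℝ) + 1) ^ (1 : ℝ) := by
            refine Real.rpow_le_rpow_of_exponent_le ?_ (by norm_num)
            have : (0 : ℝ) ≤ n := Nat.cast_nonneg _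
            linarith
        _ = _ := Real.rpow_one _
    have h5 : Real.log Y ^ C₁ ≤ Real.log Y ^ (C₁ * (n + 1) + C₁) :=
      pow_le_pow_right₀ hlog (by omega)
    have h6 : (C₁ : ℝ) * ((PI K x' x b).card : ℝ) ^ (3 / 4 : ℝ) ≤
        ((C₁ * (n + 1) + C₁ : ℕ) : ℝ) * x ^ (3 / 4 : ℝ) := by
      refine (mul_le_mul_of_nonneg_left h4 (Nat.cast_nonneg _)).trans ?_
      push_cast
      have : (0 : ℝ) ≤ (C₁ : ℝ) * x ^ (3 / 4 : ℝ) := mul_nonneg (Nat.cast_nonneg _) hx34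
      nlinarith
    linarith

end H77.GL
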