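import Pool.Agent.H77.GL.Defs
import Pool.Agent.H63.MA.AFin

/-!
# H77-GL-CNT: the number of pairs (set of primes, honest homomorphism to a symmetric group)

* `pl_cnt`: at most `Y ^ c` pairs `(T, φ)`, `φ : Gal(Ω/K) →* G` honest for `T` with image a `p`-group, `∏_{v ∈ T} nm v ≤ Y ^ C`.
-/

set_option autoImplicit false
set_option linter.dupNamespace false

open scoped NumberField
open IsDedekindDomain
open scoped Classical

noncomputable section

namespace H77.GL

open H63.MA H38.BB H38.BG H57.PC H57.BRA H77.WD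

variable {K : Type} [Field K] [NumberField K] {Ω : Type} [Field Ω] [Algebra K Ω] [IsAlgClosure K Ω]
  {p : ℕ} {ζ : K}

theorem hon_cnt (hp : p.Prime) (hζ : IsPrimitiveRoot ζ p) {D : RD0 K p ζ} (L : LDs D Ω)
    (A : GS D Ω) (T : Finset (Pl K)) (H : Type) [Group H] [Finite H] :
    (hon_fin hp hζ L A T H).toFinset.card ≤ Nat.card H ^ (T.card + A.g) := by
  have : Fintype H := Fintype.ofFinite H
  have h1 : (hon_fin hp hζ L A T H).toFinset.card ≤
      (Finset.univ : Finset ((T → H) × (Fin A.g → H))).card := by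
    refine Finset.card_le_card_of_injOn (fun φ : Gal(Ω/K) →* H =>
      ((fun v : T => φ (L.t v), fun i : Fin A.g => φ (A.a i)) : (T → H) × (Fin A.g → H)))
      (fun _ _ => Finset.mem_coe.2 (Finset.mem_univ _)) ?_
    intro φ hφ φ' hφ' h
    obtain ⟨h1, h2⟩ := (Set.Finite.mem_toFinset _).1 (Finset.mem_coe.1 hφ)
    obtain ⟨h3, h4⟩ := (Set.Finite.mem_toFinset _).1 (Finset.mem_coe.1 hφ')
    have h5 := congrArg Prod.fst h
    have h6 := congrArg Prod.snd h
    exact hon_eq hp hζ L A T φ φ' h1 h3 h2 h4 (fun v hv => congrFun h5 ⟨v, hv⟩) fun i =>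
      congrFun h6 i
  refine h1.trans (le_of_eq ?_)
  rw [Finset.card_univ, Fintype.card_prod, Fintype.card_fun, Fintype.card_fun, Fintype.card_coe,
    Fintype.card_fin, ← pow_add, Nat.card_eq_fintype_card]

theorem pl_cnt (hp : p.Prime) (hζ : IsPrimitiveRoot ζ p) {D : RD0 K p ζ} (L : LDs D Ω)
    (A : GS D Ω) (C : ℕ) (H : Type) [Group H] [Finite H] :
    ∃ c : ℕ, ∀ Y : ℝ, 2 ≤ Y → ∃ R : Finset (Finset (Pl K) × (Gal(Ω/K) →* H)),
      (R.card : ℝ) ≤ Y ^ c ∧ ∀ (T : Finset (Pl K)) (φ : Gal(Ω/K) →* H),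
        ∏ v ∈ T, (nm v : ℝ) ≤ Y ^ C → Hon L T φ → IsPGroup p φ.range → (T, φ) ∈ R := by
  obtain ⟨c₁, hc₁, hAF⟩ := af_card K
  obtain ⟨k, hk⟩ := pow_unbounded_of_one_lt (Nat.card H : ℝ) (one_lt_two)
  obtain ⟨k₂, hk₂⟩ := pow_unbounded_of_one_lt (c₁ * (Nat.card H : ℝ) ^ A.g) (one_lt_two)
  refine ⟨k₂ + C + C * k, fun Y hY => ?_⟩
  have hY1 : 1 ≤ Y := by linarith
  have hYC : 1 ≤ Y ^ C := one_le_pow₀ hY1
  refine ⟨(AF K (Y ^ C)).biUnion fun T =>
    (hon_fin hp hζ L A T H).toFinset.image fun φ => (T, φ), ?_, fun T φ h1 h2 h3 => ?_⟩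
  · have h1 : ∀ T ∈ AF K (Y ^ C), (((hon_fin hp hζ L A T H).toFinset.image
        fun φ => (T, φ)).card : ℝ) ≤ (Nat.card H : ℝ) ^ A.g * (Y ^ (C * k)) := by
      intro T hT
      have h2 : (((hon_fin hp hζ L A T H).toFinset.image fun φ => (T, φ)).card : ℝ) ≤
          (Nat.card H : ℝ) ^ (T.card + A.g) := by
        exact_mod_cast Finset.card_image_le.trans (hon_cnt hp hζ L A T H)
      have h3 : (2 : ℝ) ^ T.card ≤ Y ^ C := (two_pow_le_nr T).trans (mem_AF.1 hT)
      have h4 : (Nat.card H : ℝ) ^ T.card ≤ Y ^ (C * k) := by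
        calc (Nat.card H : ℝ) ^ T.card ≤ (2 ^ k) ^ T.card :=
              pow_le_pow_left₀ (Nat.cast_nonneg _) hk.le _
          _ = (2 ^ T.card) ^ k := by rw [← pow_mul, ← pow_mul, mul_comm]
          _ ≤ (Y ^ C) ^ k := pow_le_pow_left₀ (by positivity) h3 _
          _ = _ := by rw [← pow_mul]
      refine h2.trans ?_
      rw [pow_add, mul_comm]
      exact mul_le_mul_of_nonneg_left h4 (by positivity)
    have h5 : (((AF K (Y ^ C)).biUnion fun T =>
        (hon_fin hp hζ L A T H).toFinset.image fun φ => (T, φ)).card : ℝ) ≤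
        (AF K (Y ^ C)).card * ((Nat.card H : ℝ) ^ A.g * (Y ^ (C * k))) := by
      rw [← nsmul_eq_mul, ← Finset.sum_const]
      refine le_trans ?_ (Finset.sum_le_sum h1)
      exact_mod_cast Finset.card_biUnion_le
    refine h5.trans ?_
    have h6 := hAF (Y ^ C) hYC
    calc _ ≤ c₁ * Y ^ C * ((Nat.card H : ℝ) ^ A.g * (Y ^ (C * k))) :=
          mul_le_mul_of_nonneg_right h6 (by positivity)
      _ = (c₁ * (Nat.card H : ℝ) ^ A.g) * (Y ^ C * Y ^ (C * k)) := by ring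
      _ ≤ Y ^ k₂ * (Y ^ C * Y ^ (C * k)) := by
          refine mul_le_mul_of_nonneg_right (hk₂.le.trans ?_) (by positivity)
          exact pow_le_pow_left₀ (by norm_num) hY _
      _ = _ := by rw [pow_add, pow_add]; ring
  · rw [Finset.mem_biUnion]
    refine ⟨T, ?_, Finset.mem_image.2 ⟨φ, ?_, rfl⟩⟩
    · rw [mem_AF]
      exact h1
    · rw [Set.Finite.mem_toFinset]
      exact ⟨h2, h3⟩

end H77.GL
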