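import Pool.Agent.H77.WD.Fra
import Pool.Agent.H77.WD.Wrd

/-!
# H77-GL: good places (MP_b39724_nt, all classes, chapter UB), definitions

* `cjL L s`, `cjF Fr s`: the local data and Frobenius elements conjugated by `s v` at the prime `v`. `hon_cj`: the honest homomorphisms are the same.
* `av φ h y`: the mean of `h (g y g⁻¹)` over `g` in the image of `φ`.
-/

set_option autoImplicit false
set_option linter.dupNamespace false

open scoped NumberField Pointwise
open IsDedekindDomain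
open scoped Classical

noncomputable section

namespace H77.GL

open H63.MA H38.BB H38.BG H57.PC H57.BRA H77.WD

variable {K : Type} [Field K] [NumberField K] {Ω : Type} [Field Ω] [Algebra K Ω]
  {p : ℕ} {ζ : K} {D : RD0 K p ζ}

/-- conjugated local data -/
def cjLD {v : Pl K} {π : Kˣ} (l : LD p ζ Ω v π) (s : Gal(Ω/K)) : LD p ζ Ω v π where
  P := s • l.P
  prime := by
    have := l.prime
    infer_instance
  under := by
    rw [← l.under]
    ext x
    rw [Ideal.mem_comap, Ideal.mem_comap, Ideal.mem_pointwise_smul_iff_inv_smul_mem]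
    rw [smul_algebraMap]
  w := s l.w
  hw := by rw [← map_pow, l.hw, AlgEquiv.commutes]
  t := s * l.t * s⁻¹
  ht := fun x => by
    change (s * l.t * s⁻¹) • x - x ∈ s • l.P
    rw [Ideal.mem_pointwise_smul_iff_inv_smul_mem]
    have h1 : s⁻¹ • ((s * l.t * s⁻¹) • x - x) = l.t • (s⁻¹ • x) - s⁻¹ • x := by
      rw [smul_sub, mul_smul, mul_smul, inv_smul_smul]
    rw [h1]
    exact l.ht (s⁻¹ • x)
  act := by
    rw [AlgEquiv.mul_apply, AlgEquiv.mul_apply]
    have h1 : s⁻¹ (s l.w) = l.w := by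
      rw [← AlgEquiv.mul_apply, inv_mul_cancel]
      rfl
    rw [h1, l.act, map_mul, AlgEquiv.commutes]

/-- the local data conjugated by `s v` at `v` -/
def cjL (L : LDs D Ω) (s : Pl K → Gal(Ω/K)) : LDs D Ω where
  ld v hv := cjLD (L.ld v hv) (s v)

theorem cj_t (L : LDs D Ω) (s : Pl K → Gal(Ω/K)) {v : Pl K} (hv : v ∉ D.S0) :
    (cjL L s).t v = s v * L.t v * (s v)⁻¹ := by
  unfold LDs.t
  rw [dif_pos hv, dif_pos hv]
  rfl

theorem cj_inr (L : LDs D Ω) (s : Pl K → Gal(Ω/K)) {v : Pl K} (hv : v ∉ D.S0) (τ : Gal(Ω/K))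
    (hτ : τ ∈ inr L v) : s v * τ * (s v)⁻¹ ∈ inr (cjL L s) v := by
  unfold inr at hτ ⊢
  rw [dif_pos hv] at hτ ⊢
  intro x
  change (s v * τ * (s v)⁻¹) • x - x ∈ s v • (L.ld v hv).P
  rw [Ideal.mem_pointwise_smul_iff_inv_smul_mem]
  have h1 : (s v)⁻¹ • ((s v * τ * (s v)⁻¹) • x - x) = τ • ((s v)⁻¹ • x) - (s v)⁻¹ • x := by
    rw [smul_sub, mul_smul, mul_smul, inv_smul_smul]
  rw [h1]
  exact hτ ((s v)⁻¹ • x)

/-- the Frobenius elements conjugated by `s v` at `v` -/
def cjF {L : LDs D Ω} (Fr : FR L) (s : Pl K → Gal(Ω/K)) : FR (cjL L s) where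
  F v := s v * Fr.F v * (s v)⁻¹
  fr v hv x := by
    change (s v * Fr.F v * (s v)⁻¹) • x - x ^ nm v ∈ s v • (L.ld v hv).P
    rw [Ideal.mem_pointwise_smul_iff_inv_smul_mem]
    have h1 : (s v)⁻¹ • ((s v * Fr.F v * (s v)⁻¹) • x - x ^ nm v) =
        Fr.F v • ((s v)⁻¹ • x) - ((s v)⁻¹ • x) ^ nm v := by
      rw [smul_sub, mul_smul, mul_smul, inv_smul_smul, smul_pow']
    rw [h1]
    exact Fr.fr v hv ((s v)⁻¹ • x)
  kf v hv a := by
    rw [← Fr.kf v hv a]
    unfold kk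
    congr 1
    rw [map_mul, map_mul, map_inv, mul_comm, inv_mul_cancel_left]
  com v hv H _ _ φ hφ h := by
    have h1 := Fr.com v hv H φ hφ fun τ hτ => by
      have h2 := h _ (cj_inr L s hv τ hτ)
      rwa [map_mul, map_mul, map_inv, conj_pow, conj_eq_one_iff] at h2
    rw [cj_t L s hv, ← map_mul, ← map_mul]
    have e1 : s v * Fr.F v * (s v)⁻¹ * (s v * L.t v * (s v)⁻¹) =
        s v * (Fr.F v * L.t v) * (s v)⁻¹ := by group
    have e2 : s v * L.t v * (s v)⁻¹ * (s v * Fr.F v * (s v)⁻¹) =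
        s v * (L.t v * Fr.F v) * (s v)⁻¹ := by group
    rw [e1, e2]
    simp only [map_mul]
    rw [h1]

theorem hon_cj (L : LDs D Ω) (s : Pl K → Gal(Ω/K)) (T : Finset (Pl K)) {H : Type} [Group H]
    (φ : Gal(Ω/K) →* H) : Hon (cjL L s) T φ ↔ Hon L T φ := by
  refine and_congr Iff.rfl (forall_congr' fun v => forall_congr' fun hv => ?_)
  rw [cj_t L s hv, map_mul, map_mul, map_inv, conj_pow, conj_eq_one_iff, conj_eq_one_iff]

/-- the mean of `h (g y g⁻¹)` over the image of `φ` -/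
def av {Γ H : Type} [Group Γ] [Group H] [Finite H] (φ : Γ →* H) (h : H → ℂ) (y : H) : ℂ :=
  (Nat.card φ.range : ℂ)⁻¹ * ∑ g ∈ (Set.toFinite (φ.range : Set H)).toFinset, h (g * y * g⁻¹)

end H77.GL
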