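import Pool.Agent.H77.GL.Mn
import Pool.Agent.H77.PC3.CMa
import Pool.Agent.H57.AN.Che

/-!
# H77-GL-GL: good places

* `gl_fam`: for `Y ≥ Y₀` and at most `Y ^ C` sets `A` of primes there are local data `L` and Frobenius elements `Fr` such that for all finite `p`-groups
  `H` of order at most `M`, all honest `φ : Gal(Ω/K) →* H`, all bounded `h : H → ℂ` and all `A` the sum over `w ∈ A` (outside `S0` and `T`) of
  `h (φ (Fr.F w)) - av φ h (φ (Fr.F w))` is at most `C' #A^(3/4) + (log Y)^C'`.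
* `gl`: the same for the primes with `x' < nm w ≤ x`, all or those of prime norm.
-/

set_option autoImplicit false
set_option linter.dupNamespace false

open scoped NumberField
open IsDedekindDomain
open scoped Classical

noncomputable section

namespace H77.GL

open H63.MA H38.BB H38.BG H57.PC H57.BRA H77.WD

variable {K : Type} [Field K] [NumberField K] {Ω : Type} [Field Ω] [Algebra K Ω]
  {p : ℕ} {ζ : K}

/-- choice of the conjugating elements -/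
theorem gl_ch {D : RD0 K p ζ} {L : LDs D Ω} (Fr : FR L) (G : Type) [Group G] [Finite G]
    (R : Finset (Finset (Pl K) × (Gal(Ω/K) →* G))) (𝒜 : Finset (Finset (Pl K))) (B : ℝ)
    (hB : ∀ a : ℝ, B ≤ a → 2 * ((R.card : ℝ) * Nat.card G * 𝒜.card) *
      Real.exp (-(Real.sqrt a / 2)) < 1) :
    ∃ s : Pl K → Gal(Ω/K), ∀ (T : Finset (Pl K)) (φ : Gal(Ω/K) →* G), (T, φ) ∈ R → ∀ A ∈ 𝒜,
      ∃ (Γ : Type) (_ : Group Γ) (_ : Fintype Γ) (q : Gal(Ω/K) →* Γ) (ψ : Γ →* G),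
        Function.Surjective q ∧ ψ.comp q = φ ∧ ∀ y : G,
          |∑ w ∈ A.filter (fun w => w ∉ D.S0 ∧ w ∉ T),
            cind (fun g : Γ => ψ g * φ (Fr.F w) * (ψ g)⁻¹) y (q (s w))| ≤
              (A.card : ℝ) ^ (3 / 4 : ℝ) + max B 0 := by
  have hGf : Fintype G := Fintype.ofFinite G
  set Φ : Gal(Ω/K) →* (↥R → G) := MonoidHom.pi fun e : ↥R => e.1.2 with hΦ
  have hΓ : Fintype Φ.range := Fintype.ofFinite _
  set W : Finset (Pl K) := 𝒜.biUnion id with hW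
  set ψ : ↥R → Φ.range →* G := fun e => (Pi.evalMonoidHom _ e).comp Φ.range.subtype with hψ
  have hψ2 : ∀ e, (ψ e).comp Φ.rangeRestrict = e.1.2 := fun e => rfl
  let E : Type := ↥R × G × Finset (Pl K)
  set Ae : E → Finset ↥W := fun e =>
    Finset.univ.filter fun w => w.1 ∈ e.2.2 ∧ w.1 ∉ D.S0 ∧ w.1 ∉ e.1.1.1 with hAe
  set X : E → ↥W → Φ.range → ℝ := fun e w =>
    cind (fun g : Φ.range => ψ e.1 g * e.1.1.2 (Fr.F w.1) * (ψ e.1 g)⁻¹) e.2.1 with hX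
  set S : Finset E := (Finset.univ ×ˢ Finset.univ ×ˢ 𝒜).filter
    fun e => B ≤ (Ae e).card with hS
  have hScard : (S.card : ℝ) ≤ (R.card : ℝ) * Nat.card G * 𝒜.card := by
    have h1 : S.card ≤ R.card * (Nat.card G * 𝒜.card) := by
      refine (Finset.card_filter_le _ _).trans (le_of_eq ?_)
      rw [Finset.card_product, Finset.card_product, Finset.card_univ, Finset.card_univ,
        Fintype.card_coe, Nat.card_eq_fintype_card]
    calc (S.card : ℝ) ≤ ((R.card * (Nat.card G * 𝒜.card) : ℕ) : ℝ) := by exact_mod_cast h1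
      _ = _ := by push_cast; ring
  obtain ⟨s, hs⟩ := hf_union S Ae X (fun e w g => cind_abs _ _ _) (fun e w => cind_sum _ _)
    (fun e he => by
      refine lt_of_le_of_lt ?_ (hB _ (Finset.mem_filter.1 he).2)
      exact mul_le_mul_of_nonneg_right (mul_le_mul_of_nonneg_left hScard (by norm_num))
        (Real.exp_pos _).le)
  have hlift : ∀ g : Φ.range, ∃ σ, Φ.rangeRestrict σ = g := Φ.rangeRestrict_surjective
  choose lf hlf using hlift
  refine ⟨fun w => if h : w ∈ W then lf (s ⟨w, h⟩) else 1, fun T φ hR A hA => ?_⟩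
  refine ⟨Φ.range, inferInstance, hΓ, Φ.rangeRestrict, ψ ⟨(T, φ), hR⟩,
    Φ.rangeRestrict_surjective, hψ2 ⟨(T, φ), hR⟩, fun y => ?_⟩
  have hsum : ∑ w ∈ A.filter (fun w => w ∉ D.S0 ∧ w ∉ T),
      cind (fun g : Φ.range => ψ ⟨(T, φ), hR⟩ g * φ (Fr.F w) * (ψ ⟨(T, φ), hR⟩ g)⁻¹) y
        (Φ.rangeRestrict (if h : w ∈ W then lf (s ⟨w, h⟩) else 1)) =
      ∑ w ∈ Ae (⟨(T, φ), hR⟩, y, A), X (⟨(T, φ), hR⟩, y, A) w (s w) := by
    symm
    refine Finset.sum_bij (fun w _ => w.1) ?_ ?_ ?_ ?_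
    · intro w hw
      exact Finset.mem_filter.2 (Finset.mem_filter.1 hw).2
    · intro w _ w' _ h
      exact Subtype.ext h
    · intro w hw
      have hw1 := Finset.mem_filter.1 hw
      have hw2 : w ∈ W := Finset.mem_biUnion.2 ⟨A, hA, hw1.1⟩
      exact ⟨⟨w, hw2⟩, Finset.mem_filter.2 ⟨Finset.mem_univ _, hw1⟩, rfl⟩
    · intro w _
      rw [hX]
      simp only
      rw [dif_pos w.2, hlf]
  have hcard : ((Ae (⟨(T, φ), hR⟩, y, A)).card : ℝ) ≤ A.card := by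
    have h1 : (Ae (⟨(T, φ), hR⟩, y, A)).card ≤ A.card := by
      refine Finset.card_le_card_of_injOn (fun w => w.1) ?_ fun w _ w' _ h => Subtype.ext h
      intro w hw
      exact (Finset.mem_filter.1 (Finset.mem_coe.1 hw)).2.1
    exact_mod_cast h1
  rw [hsum]
  by_cases hb : B ≤ (Ae (⟨(T, φ), hR⟩, y, A)).card
  · have h1 := hs (⟨(T, φ), hR⟩, y, A) (Finset.mem_filter.2 ⟨Finset.mem_product.2
      ⟨Finset.mem_univ _, Finset.mem_product.2 ⟨Finset.mem_univ _, hA⟩⟩, hb⟩)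
    refine h1.trans ?_
    have h2 : ((Ae (⟨(T, φ), hR⟩, y, A)).card : ℝ) ^ (3 / 4 : ℝ) ≤ (A.card : ℝ) ^ (3 / 4 : ℝ) :=
      Real.rpow_le_rpow (Nat.cast_nonneg _) hcard (by norm_num)
    have h3 := le_max_right B 0
    linarith
  · push Not at hb
    have h1 : |∑ w ∈ Ae (⟨(T, φ), hR⟩, y, A), X (⟨(T, φ), hR⟩, y, A) w (s w)| ≤
        (Ae (⟨(T, φ), hR⟩, y, A)).card := by
      refine (Finset.abs_sum_le_sum_abs _ _).trans ?_
      refine (Finset.sum_le_sum fun w _ => cind_abs _ _ _).trans (le_of_eq ?_)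
      rw [Finset.sum_const, nsmul_eq_mul, mul_one]
    have h2 : (0 : ℝ) ≤ (A.card : ℝ) ^ (3 / 4 : ℝ) := Real.rpow_nonneg (Nat.cast_nonneg _) _
    have h3 := le_max_left B 0
    linarith

/-- the factor `θ` -/
theorem fac_ex {Δ Γ G H : Type} [Group Δ] [Group Γ] [Group G] [Group H] (q : Δ →* Γ)
    (hq : Function.Surjective q) (ψ : Γ →* G) (j : H →* G) (hj : Function.Injective j)
    (φ : Δ →* H) (h : ψ.comp q = j.comp φ) : ∃ θ : Γ →* H, θ.comp q = φ ∧ ∀ g, j (θ g) = ψ g := by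
  have hk : q.ker ≤ φ.ker := by
    intro σ hσ
    rw [MonoidHom.mem_ker] at hσ ⊢
    apply hj
    have h1 := DFunLike.congr_fun h σ
    rw [MonoidHom.comp_apply, MonoidHom.comp_apply, hσ, map_one] at h1
    rw [← h1, map_one]
  obtain ⟨θ, hθ⟩ : ∃ θ : Γ →* H, θ.comp q = φ :=
    ⟨MonoidHom.liftOfSurjective q hq ⟨φ, hk⟩, MonoidHom.liftOfRightInverse_comp _ _ _ _⟩
  refine ⟨θ, hθ, fun g => ?_⟩
  obtain ⟨σ, rfl⟩ := hq g
  have h1 := DFunLike.congr_fun h σ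
  rw [MonoidHom.comp_apply, MonoidHom.comp_apply, ← hθ] at h1
  rw [h1]
  rfl

theorem cind_inj {Γ G H : Type} [Group Γ] [Fintype Γ] [Group G] [Group H] (ψ : Γ →* G)
    (θ : Γ →* H) (j : H →* G) (hj : Function.Injective j) (h : ∀ g, j (θ g) = ψ g) (z y : H)
    (g : Γ) : cind (fun g : Γ => θ g * z * (θ g)⁻¹) y g =
      cind (fun g : Γ => ψ g * j z * (ψ g)⁻¹) (j y) g := by
  have h1 : ∀ g, (θ g * z * (θ g)⁻¹ = y) ↔ (ψ g * j z * (ψ g)⁻¹ = j y) := by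
    intro g
    rw [← h, ← map_inv j, ← map_mul j, ← map_mul j]
    exact hj.eq_iff.symm
  unfold cind
  simp only [h1]

theorem gl_num (m : ℕ) (Y : ℝ) (hY : Real.exp (2 * m + 2) ≤ Y) :
    ∀ a : ℝ, Real.log Y ^ 4 ≤ a → Y ^ m * Real.exp (-(Real.sqrt a / 2)) < 1 := by
  intro a ha
  have hY0 : 0 < Y := (Real.exp_pos _).trans_le hY
  have hl : 2 * (m : ℝ) + 2 ≤ Real.log Y := (Real.le_log_iff_exp_le hY0).2 hY
  have hm : (0 : ℝ) ≤ m := Nat.cast_nonneg _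
  have h1 : Real.log Y ^ 2 ≤ Real.sqrt a := by
    apply Real.le_sqrt_of_sq_le
    rw [← pow_mul]
    exact ha
  have h2 : Y ^ m = Real.exp (m * Real.log Y) := by
    rw [mul_comm, Real.exp_mul, Real.exp_log hY0, Real.rpow_natCast]
  rw [h2, ← Real.exp_add, Real.exp_lt_one_iff]
  nlinarith

theorem gl_fam [IsAlgClosure K Ω] (hp : p.Prime) (hζ : IsPrimitiveRoot ζ p) (D : RD0 K p ζ)
    (M C : ℕ) : ∃ (C' : ℕ) (Y₀ : ℝ), ∀ Y : ℝ, Y₀ ≤ Y → ∀ 𝒜 : Finset (Finset (Pl K)),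
      (𝒜.card : ℝ) ≤ Y ^ C → ∃ (L : LDs D Ω) (Fr : FR L), ∀ (H : Type) [Group H] [Finite H],
        IsPGroup p H → Nat.card H ≤ M → ∀ (φ : Gal(Ω/K) →* H) (T : Finset (Pl K)), Hon L T φ →
          ∏ v ∈ T, (nm v : ℝ) ≤ Y ^ C → ∀ h : H → ℂ, (∀ y, ‖h y‖ ≤ 1) → ∀ A ∈ 𝒜,
            ‖∑ w ∈ A.filter (fun w => w ∉ D.S0 ∧ w ∉ T),
              (h (φ (Fr.F w)) - av φ h (φ (Fr.F w)))‖ ≤
                C' * (A.card : ℝ) ^ (3 / 4 : ℝ) + Real.log Y ^ C' := by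
  obtain ⟨L₀⟩ := exists_LDs Ω hp hζ D
  obtain ⟨Fr₀⟩ := H57.BRA.exists_FR hp hζ L₀
  obtain ⟨A₀⟩ := gs_exists hp hζ D Ω
  obtain ⟨c, hc⟩ := pl_cnt hp hζ L₀ A₀ C (Equiv.Perm (Fin M))
  obtain ⟨k, hk⟩ := pow_unbounded_of_one_lt (Nat.card (Equiv.Perm (Fin M)) : ℝ) (one_lt_two)
  refine ⟨M + 4, Real.exp (2 * ((1 + c + k + C : ℕ) : ℝ) + 2), fun Y hY 𝒜 h𝒜 => ?_⟩
  have hY0 : 0 < Y := (Real.exp_pos _).trans_le hY
  have hl : 2 * ((1 + c + k + C : ℕ) : ℝ) + 2 ≤ Real.log Y := (Real.le_log_iff_exp_le hY0).2 hY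
  have hm : (0 : ℝ) ≤ ((1 + c + k + C : ℕ) : ℝ) := Nat.cast_nonneg _
  have hl2 : 2 ≤ Real.log Y := by linarith
  have hY2 : 2 ≤ Y := by
    have h1 := Real.add_one_le_exp (2 * ((1 + c + k + C : ℕ) : ℝ) + 2)
    linarith
  obtain ⟨R, hR1, hR2⟩ := hc Y hY2
  obtain ⟨s, hs⟩ := gl_ch Fr₀ (Equiv.Perm (Fin M)) R 𝒜 (Real.log Y ^ 4) (by
    intro a ha
    refine lt_of_le_of_lt ?_ (gl_num (1 + c + k + C) Y hY a ha)
    refine mul_le_mul_of_nonneg_right ?_ (Real.exp_pos _).le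
    have h1 : (Nat.card (Equiv.Perm (Fin M)) : ℝ) ≤ Y ^ k :=
      hk.le.trans (pow_le_pow_left₀ (by norm_num) hY2 _)
    calc 2 * ((R.card : ℝ) * Nat.card (Equiv.Perm (Fin M)) * 𝒜.card) ≤
        Y * (Y ^ c * Y ^ k * Y ^ C) := by
          refine mul_le_mul hY2 ?_ (by positivity) (by positivity)
          refine mul_le_mul ?_ h𝒜 (by positivity) (by positivity)
          exact mul_le_mul hR1 h1 (by positivity) (by positivity)
      _ = Y ^ (1 + c + k + C) := by rw [pow_add, pow_add, pow_add, pow_one]; ring)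
  refine ⟨cjL L₀ s, cjF Fr₀ s, fun H _ _ hH hM φ T hhon hT h hh A hA => ?_⟩
  have hHf : Fintype H := Fintype.ofFinite H
  obtain ⟨j, hj⟩ := emb H hM
  rw [hon_cj] at hhon
  obtain ⟨Γ, _, _, q, ψ, hq, hψ, hb⟩ := hs T (j.comp φ)
    (hR2 T _ hT (hhon.comp j) (pg_range φ j (hH.to_subgroup _))) A hA
  obtain ⟨θ, hθ, hθ2⟩ := fac_ex q hq ψ j hj φ hψ
  have hF : ∀ w, φ ((cjF Fr₀ s).F w) = φ (s w) * φ (Fr₀.F w) * (φ (s w))⁻¹ := by
    intro w
    rw [← map_inv, ← map_mul, ← map_mul]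
    rfl
  have h1 : ∑ w ∈ A.filter (fun w => w ∉ D.S0 ∧ w ∉ T),
      (h (φ ((cjF Fr₀ s).F w)) - av φ h (φ ((cjF Fr₀ s).F w))) =
      ∑ y : H, h y * ((∑ w ∈ A.filter (fun w => w ∉ D.S0 ∧ w ∉ T),
        cind (fun g : Γ => ψ g * (j.comp φ) (Fr₀.F w) * (ψ g)⁻¹) (j y) (q (s w)) : ℝ) : ℂ) := by
    have e1 : ∀ w, h (φ ((cjF Fr₀ s).F w)) - av φ h (φ ((cjF Fr₀ s).F w)) =
        ∑ y : H, h y *
          (cind (fun g : Γ => θ g * φ (Fr₀.F w) * (θ g)⁻¹) y (q (s w)) : ℂ) := by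
      intro w
      rw [hF w]
      exact dif φ q hq θ hθ h (φ (Fr₀.F w)) (s w)
    rw [Finset.sum_congr rfl fun w _ => e1 w, Finset.sum_comm]
    refine Finset.sum_congr rfl fun y _ => ?_
    rw [← Finset.mul_sum]
    push_cast
    congr 1
    refine Finset.sum_congr rfl fun w _ => ?_
    rw [cind_inj ψ θ j hj hθ2]
    rfl
  rw [h1]
  have hMc : (Fintype.card H : ℝ) ≤ M := by
    rw [← Nat.card_eq_fintype_card]
    exact_mod_cast hM
  have hA0 : (0 : ℝ) ≤ (A.card : ℝ) ^ (3 / 4 : ℝ) := Real.rpow_nonneg (Nat.cast_nonneg _) _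
  have hmax : max (Real.log Y ^ 4) 0 = Real.log Y ^ 4 := max_eq_left (by positivity)
  have h2 : ‖∑ y : H, h y * ((∑ w ∈ A.filter (fun w => w ∉ D.S0 ∧ w ∉ T),
        cind (fun g : Γ => ψ g * (j.comp φ) (Fr₀.F w) * (ψ g)⁻¹) (j y) (q (s w)) : ℝ) : ℂ)‖ ≤
      M * ((A.card : ℝ) ^ (3 / 4 : ℝ) + Real.log Y ^ 4) := by
    refine (norm_sum_le _ _).trans ?_
    refine (Finset.sum_le_sum (g := fun _ => (A.card : ℝ) ^ (3 / 4 : ℝ) + Real.log Y ^ 4)
      fun y _ => ?_).trans ?_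
    · rw [norm_mul, Complex.norm_real, Real.norm_eq_abs]
      have h3 := hb (j y)
      rw [hmax] at h3
      calc _ ≤ 1 * _ := mul_le_mul_of_nonneg_right (hh y) (abs_nonneg _)
        _ = _ := one_mul _
        _ ≤ _ := h3
    · rw [Finset.sum_const, nsmul_eq_mul, Finset.card_univ]
      exact mul_le_mul_of_nonneg_right hMc (by positivity)
  refine h2.trans ?_
  have h3 : (M : ℝ) ≤ Real.log Y ^ M := by
    have h4 : (M : ℝ) ≤ 2 ^ M := by exact_mod_cast (Nat.lt_two_pow_self).le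
    exact h4.trans (pow_le_pow_left₀ (by norm_num) hl2 _)
  have h5 : (M : ℝ) * Real.log Y ^ 4 ≤ Real.log Y ^ (M + 4) := by
    rw [pow_add]
    exact mul_le_mul_of_nonneg_right h3 (by positivity)
  push_cast
  nlinarith

end H77.GL
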