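import Mathlib

/-!
# H77-GL-HF: Hoeffding's inequality in counting form, and the union bound

* `hf_card`: `X w : Γ → ℝ` with values in `[-1, 1]` and sum zero (`w ∈ A`): at most `exp (lam^2 #A / 2 - lam t) #(ι → Γ)` functions `s` have
  `∑_{w ∈ A} X w (s w) ≥ t`.
* `hf_union`: for events `e ∈ 𝓔` with `2 #𝓔 exp (-√#A_e / 2) < 1` there is `s` with `|∑_{w ∈ A_e} X e w (s w)| ≤ #A_e^(3/4)` for all `e`.
-/

set_option autoImplicit false

open scoped Classical

namespace H77.GL

variable {ι Γ : Type} [Fintype ι] [Fintype Γ]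

theorem exp_mean (X : Γ → ℝ) (h1 : ∀ g, |X g| ≤ 1) (h0 : ∑ g, X g = 0) (lam : ℝ) :
    ∑ g, Real.exp (lam * X g) ≤ Fintype.card Γ * Real.exp (lam ^ 2 / 2) := by
  have hc : ∀ g, Real.exp (lam * X g) ≤ Real.cosh lam + X g * Real.sinh lam := by
    intro g
    have ha := abs_le.1 (h1 g)
    have h2 := (convexOn_exp).2 (Set.mem_univ lam) (Set.mem_univ (-lam))
      (show 0 ≤ (1 + X g) / 2 by linarith) (show 0 ≤ (1 - X g) / 2 by linarith) (by ring)
    simp only [smul_eq_mul] at h2
    have e1 : (1 + X g) / 2 * lam + (1 - X g) / 2 * -lam = lam * X g := by ring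
    rw [e1] at h2
    refine h2.trans (le_of_eq ?_)
    rw [Real.cosh_eq, Real.sinh_eq]
    ring
  calc ∑ g, Real.exp (lam * X g) ≤ ∑ g, (Real.cosh lam + X g * Real.sinh lam) :=
        Finset.sum_le_sum fun g _ => hc g
    _ = Fintype.card Γ * Real.cosh lam := by
        rw [Finset.sum_add_distrib, ← Finset.sum_mul, h0, zero_mul, add_zero, Finset.sum_const,
          Finset.card_univ, nsmul_eq_mul]
    _ ≤ _ := mul_le_mul_of_nonneg_left (Real.cosh_le_exp_half_sq lam) (Nat.cast_nonneg _)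

theorem hf_card (A : Finset ι) (X : ι → Γ → ℝ) (h1 : ∀ w g, |X w g| ≤ 1)
    (h0 : ∀ w, ∑ g, X w g = 0) (lam t : ℝ) (hlam : 0 ≤ lam) :
    ((Finset.univ.filter fun s : ι → Γ => t ≤ ∑ w ∈ A, X w (s w)).card : ℝ) ≤
      Real.exp (lam ^ 2 * A.card / 2 - lam * t) * Fintype.card (ι → Γ) := by
  set f : ι → Γ → ℝ := fun w g => if w ∈ A then Real.exp (lam * X w g) else 1 with hf
  have hsum : ∑ s : ι → Γ, Real.exp (lam * ∑ w ∈ A, X w (s w)) = ∏ w, ∑ g, f w g := by
    rw [Finset.prod_univ_sum, Fintype.piFinset_univ]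
    refine Finset.sum_congr rfl fun s _ => ?_
    rw [Finset.mul_sum, Real.exp_sum, ← Finset.prod_filter_mul_prod_filter_not Finset.univ
      (fun w => w ∈ A), Finset.prod_eq_one (s := Finset.univ.filter fun w => w ∉ A), mul_one]
    · rw [Finset.filter_univ_mem]
      exact Finset.prod_congr rfl fun w hw => by rw [hf]; simp only [if_pos hw]
    · intro w hw
      rw [hf]
      simp only [if_neg (Finset.mem_filter.1 hw).2]
  have hprod : ∏ w, ∑ g, f w g ≤ Fintype.card (ι → Γ) * Real.exp (lam ^ 2 * A.card / 2) := by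
    have h2 : ∀ w, ∑ g, f w g ≤ Fintype.card Γ * (if w ∈ A then Real.exp (lam ^ 2 / 2) else 1) := by
      intro w
      by_cases hw : w ∈ A
      · simp only [hf, if_pos hw]
        exact exp_mean (X w) (h1 w) (h0 w) lam
      · simp only [hf, if_neg hw]
        rw [Finset.sum_const, Finset.card_univ, nsmul_eq_mul]
    refine (Finset.prod_le_prod (fun w _ => Finset.sum_nonneg fun g _ => ?_)
      fun w _ => h2 w).trans (le_of_eq ?_)
    · simp only [hf]
      split_ifs
      · exact (Real.exp_pos _).le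
      · exact zero_le_one
    · rw [Finset.prod_mul_distrib, Finset.prod_const, Finset.card_univ, Fintype.card_fun,
        Finset.prod_ite_mem, Finset.univ_inter, Finset.prod_const, ← Real.exp_nat_mul]
      push_cast
      congr 2
      ring
  have hle : ((Finset.univ.filter fun s : ι → Γ => t ≤ ∑ w ∈ A, X w (s w)).card : ℝ) *
      Real.exp (lam * t) ≤ ∑ s : ι → Γ, Real.exp (lam * ∑ w ∈ A, X w (s w)) := by
    calc _ = ∑ s ∈ Finset.univ.filter (fun s : ι → Γ => t ≤ ∑ w ∈ A, X w (s w)),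
          Real.exp (lam * t) := by rw [Finset.sum_const, nsmul_eq_mul]
      _ ≤ ∑ s ∈ Finset.univ.filter (fun s : ι → Γ => t ≤ ∑ w ∈ A, X w (s w)),
          Real.exp (lam * ∑ w ∈ A, X w (s w)) := by
          refine Finset.sum_le_sum fun s hs => Real.exp_le_exp.2 ?_
          exact mul_le_mul_of_nonneg_left (Finset.mem_filter.1 hs).2 hlam
      _ ≤ _ := Finset.sum_le_sum_of_subset_of_nonneg (Finset.filter_subset _ _)
          fun s _ _ => (Real.exp_pos _).le
  have hfin := (hle.trans_eq hsum).trans hprod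
  rw [Real.exp_sub, div_mul_eq_mul_div, le_div_iff₀ (Real.exp_pos _)]
  linarith

theorem hf_union {E : Type} (S : Finset E) [Nonempty Γ] (A : E → Finset ι) (X : E → ι → Γ → ℝ)
    (h1 : ∀ e w g, |X e w g| ≤ 1) (h0 : ∀ e w, ∑ g, X e w g = 0)
    (hS : ∀ e ∈ S, 2 * (S.card : ℝ) * Real.exp (-(Real.sqrt (A e).card / 2)) < 1) :
    ∃ s : ι → Γ, ∀ e ∈ S, |∑ w ∈ A e, X e w (s w)| ≤ ((A e).card : ℝ) ^ (3 / 4 : ℝ) := by
  by_contra hcon
  push Not at hcon
  set U := fun (e : E) (σ : ℝ) => Finset.univ.filter fun s : ι → Γ =>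
    ((A e).card : ℝ) ^ (3 / 4 : ℝ) ≤ ∑ w ∈ A e, σ * X e w (s w) with hU
  have hb : ∀ e ∈ S, ∀ σ : ℝ, |σ| = 1 → ((U e σ).card : ℝ) ≤
      Real.exp (-(Real.sqrt (A e).card / 2)) * Fintype.card (ι → Γ) := by
    intro e he σ hσ
    have h2 := hf_card (A e) (fun w g => σ * X e w g) (fun w g => by
      rw [abs_mul, hσ, one_mul]
      exact h1 e w g) (fun w => by rw [← Finset.mul_sum, h0, mul_zero])
      (((A e).card : ℝ) ^ (-(1 / 4) : ℝ)) (((A e).card : ℝ) ^ (3 / 4 : ℝ))
      (Real.rpow_nonneg (Nat.cast_nonneg _) _)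
    refine h2.trans_eq ?_
    congr 2
    rcases Nat.eq_zero_or_pos (A e).card with h3 | h3
    · rw [h3, Nat.cast_zero, Real.zero_rpow (by norm_num), Real.zero_rpow (by norm_num),
        Real.sqrt_zero]
      norm_num
    · have ha : (0 : ℝ) < (A e).card := by exact_mod_cast h3
      have e1 : (((A e).card : ℝ) ^ (-(1 / 4) : ℝ)) ^ 2 * (A e).card =
          Real.sqrt (A e).card := by
        rw [← Real.rpow_natCast, ← Real.rpow_mul ha.le, Real.sqrt_eq_rpow]
        nth_rewrite 2 [← Real.rpow_one ((A e).card : ℝ)]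
        rw [← Real.rpow_add ha]
        norm_num
      have e2 : ((A e).card : ℝ) ^ (-(1 / 4) : ℝ) * ((A e).card : ℝ) ^ (3 / 4 : ℝ) =
          Real.sqrt (A e).card := by
        rw [← Real.rpow_add ha, Real.sqrt_eq_rpow]
        norm_num
      rw [e1, e2]
      ring
  have hcov : (Finset.univ : Finset (ι → Γ)) ⊆ S.biUnion fun e => U e 1 ∪ U e (-1) := by
    intro s _
    obtain ⟨e, he, hs⟩ := hcon s
    rw [Finset.mem_biUnion]
    refine ⟨e, he, ?_⟩
    rw [Finset.mem_union, hU]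
    simp only [Finset.mem_filter, Finset.mem_univ, true_and]
    rcases le_abs'.1 hs.le with h | h
    · right
      rw [← Finset.mul_sum]
      linarith
    · left
      rw [← Finset.mul_sum]
      linarith
  have hne : S.Nonempty := by
    obtain ⟨s⟩ : Nonempty (ι → Γ) := inferInstance
    obtain ⟨e, he, -⟩ := hcon s
    exact ⟨e, he⟩
  have hN : (0 : ℝ) < Fintype.card (ι → Γ) := by exact_mod_cast Fintype.card_pos
  have hc : (Fintype.card (ι → Γ) : ℝ) ≤
      ∑ e ∈ S, 2 * Real.exp (-(Real.sqrt (A e).card / 2)) * Fintype.card (ι → Γ) := by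
    have h2 : ((Finset.univ : Finset (ι → Γ)).card : ℝ) ≤
        ∑ e ∈ S, (((U e 1).card : ℝ) + (U e (-1)).card) := by
      have h3 := (Finset.card_le_card hcov).trans Finset.card_biUnion_le
      have h4 : ∑ e ∈ S, (U e 1 ∪ U e (-1)).card ≤ ∑ e ∈ S, ((U e 1).card + (U e (-1)).card) :=
        Finset.sum_le_sum fun e _ => Finset.card_union_le _ _
      exact_mod_cast h3.trans h4
    rw [Finset.card_univ] at h2
    refine h2.trans (Finset.sum_le_sum fun e he => ?_)
    have h3 := hb e he 1 (by norm_num)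
    have h4 := hb e he (-1) (by norm_num)
    linarith
  have hS0 : (0 : ℝ) < S.card := by exact_mod_cast hne.card_pos
  have hlt : ∑ e ∈ S, 2 * Real.exp (-(Real.sqrt (A e).card / 2)) * Fintype.card (ι → Γ) <
      ∑ _e ∈ S, (S.card : ℝ)⁻¹ * Fintype.card (ι → Γ) := by
    refine Finset.sum_lt_sum_of_nonempty hne fun e he => ?_
    refine mul_lt_mul_of_pos_right ?_ hN
    have h2 := hS e he
    rw [← one_div, lt_div_iff₀ hS0]
    linarith
  rw [Finset.sum_const, nsmul_eq_mul, ← mul_assoc, mul_inv_cancel₀ hS0.ne', one_mul] at hlt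
  linarith

end H77.GL
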