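import Pool.Agent.H77.GL.Cnt
import Pool.Agent.H77.GL.Hf

/-!
# H77-GL-MN: means over groups

* `mean_hom`: the mean of `F (θ g)` over `g : Γ` is the mean of `F` over the image of `θ`. `av_conj`: `av` is invariant under conjugation by elements
  of the image. `dif`: the difference `h y - av h y` in terms of indicator functions.
-/

set_option autoImplicit false
set_option linter.dupNamespace false

open scoped Classical

noncomputable section

namespace H77.GL

variable {Γ Δ H : Type} [Group Γ] [Group Δ] [Group H] [Finite H]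

theorem mean_hom [Fintype Γ] (θ : Γ →* H) (F : H → ℂ) :
    (Fintype.card Γ : ℂ)⁻¹ * ∑ g : Γ, F (θ g) =
      (Nat.card θ.range : ℂ)⁻¹ * ∑ r ∈ (Set.toFinite (θ.range : Set H)).toFinset, F r := by
  have hR : ∀ r, r ∈ (Set.toFinite (θ.range : Set H)).toFinset ↔ r ∈ θ.range := by
    intro r
    rw [Set.Finite.mem_toFinset]
    rfl
  have hfib : ∀ r ∈ (Set.toFinite (θ.range : Set H)).toFinset,
      (Finset.univ.filter fun g : Γ => θ g = r).card =
        (Finset.univ.filter fun g : Γ => θ g = 1).card := by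
    intro r hr
    exact MonoidHom.card_fiber_eq_of_mem_range θ ((hR r).1 hr) ⟨1, map_one θ⟩
  obtain ⟨k, hk⟩ : ∃ k, k = (Finset.univ.filter fun g : Γ => θ g = 1).card := ⟨_, rfl⟩
  have h1 : ∀ F' : H → ℂ, ∑ g : Γ, F' (θ g) =
      k * ∑ r ∈ (Set.toFinite (θ.range : Set H)).toFinset, F' r := by
    intro F'
    rw [← Finset.sum_fiberwise_of_maps_to (s := (Finset.univ : Finset Γ))
      (t := (Set.toFinite (θ.range : Set H)).toFinset) (g := fun g => θ g)
      (fun g _ => (hR _).2 ⟨g, rfl⟩), Finset.mul_sum]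
    refine Finset.sum_congr rfl fun r hr => ?_
    rw [Finset.sum_congr rfl (g := fun _ => F' r) (fun g hg => by
      rw [(Finset.mem_filter.1 hg).2]), Finset.sum_const, nsmul_eq_mul, hfib r hr, ← hk]
  have h2 := h1 fun _ => 1
  rw [Finset.sum_const, nsmul_eq_mul, mul_one, Finset.sum_const, nsmul_eq_mul, mul_one,
    Finset.card_univ] at h2
  have h3 : (Nat.card θ.range : ℂ) = ((Set.toFinite (θ.range : Set H)).toFinset.card : ℂ) := by
    rw [← Set.ncard_eq_toFinset_card, ← Nat.card_coe_set_eq]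
    rfl
  have hk0 : (k : ℂ) ≠ 0 := by
    have : 0 < k := by
      rw [hk]
      exact Finset.card_pos.2 ⟨1, Finset.mem_filter.2 ⟨Finset.mem_univ _, map_one θ⟩⟩
    exact_mod_cast this.ne'
  rw [h1 F, h2, h3, mul_inv]
  field_simp

theorem av_conj (φ : Δ →* H) (h : H → ℂ) (y : H) (σ : Δ) :
    av φ h (φ σ * y * (φ σ)⁻¹) = av φ h y := by
  unfold av
  congr 1
  refine Finset.sum_bij' (fun g _ => g * φ σ) (fun g _ => g * (φ σ)⁻¹) ?_ ?_ ?_ ?_ ?_
  · intro g hg
    rw [Set.Finite.mem_toFinset] at hg ⊢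
    exact φ.range.mul_mem hg ⟨σ, rfl⟩
  · intro g hg
    rw [Set.Finite.mem_toFinset] at hg ⊢
    exact φ.range.mul_mem hg (φ.range.inv_mem ⟨σ, rfl⟩)
  · intro g _
    rw [mul_inv_cancel_right]
  · intro g _
    rw [inv_mul_cancel_right]
  · intro g _
    congr 1
    group

/-- `av` as a mean over a finite group through which `φ` factors -/
theorem av_fac [Fintype Γ] (φ : Δ →* H) (q : Δ →* Γ) (hq : Function.Surjective q) (θ : Γ →* H)
    (hθ : θ.comp q = φ) (h : H → ℂ) (y : H) :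
    av φ h y = (Fintype.card Γ : ℂ)⁻¹ * ∑ g : Γ, h (θ g * y * (θ g)⁻¹) := by
  have h1 : θ.range = φ.range := by
    rw [← hθ]
    ext r
    constructor
    · rintro ⟨g, rfl⟩
      obtain ⟨σ, rfl⟩ := hq g
      exact ⟨σ, rfl⟩
    · rintro ⟨σ, rfl⟩
      exact ⟨q σ, rfl⟩
  have h2 := mean_hom θ fun r => h (r * y * r⁻¹)
  rw [h2]
  unfold av
  simp only [h1]

/-- the centred indicator function -/
def cind [Fintype Γ] {H' : Type} (F : Γ → H') (y : H') (g : Γ) : ℝ :=
  (if F g = y then 1 else 0) - (Fintype.card Γ : ℝ)⁻¹ * ∑ g' : Γ, if F g' = y then 1 else 0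

theorem cind_sum [Fintype Γ] {H' : Type} (F : Γ → H') (y : H') : ∑ g, cind F y g = 0 := by
  unfold cind
  rw [Finset.sum_sub_distrib, Finset.sum_const, nsmul_eq_mul, Finset.card_univ, ← mul_assoc,
    mul_inv_cancel₀, one_mul, sub_self]
  exact_mod_cast Fintype.card_ne_zero

theorem cind_abs [Fintype Γ] {H' : Type} (F : Γ → H') (y : H') (g : Γ) : |cind F y g| ≤ 1 := by
  have hN : (0 : ℝ) < Fintype.card Γ := by exact_mod_cast Fintype.card_pos
  have h1 : 0 ≤ ∑ g' : Γ, (if F g' = y then (1 : ℝ) else 0) :=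
    Finset.sum_nonneg fun g' _ => by split_ifs <;> norm_num
  have h2 : ∑ g' : Γ, (if F g' = y then (1 : ℝ) else 0) ≤ Fintype.card Γ := by
    calc _ ≤ ∑ _g' : Γ, (1 : ℝ) := Finset.sum_le_sum fun g' _ => by split_ifs <;> norm_num
      _ = _ := by rw [Finset.sum_const, nsmul_eq_mul, mul_one, Finset.card_univ]
  have h3 : 0 ≤ (Fintype.card Γ : ℝ)⁻¹ * ∑ g' : Γ, (if F g' = y then (1 : ℝ) else 0) := by
    positivity
  have h4 : (Fintype.card Γ : ℝ)⁻¹ * ∑ g' : Γ, (if F g' = y then (1 : ℝ) else 0) ≤ 1 := by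
    rw [inv_mul_le_iff₀ hN, mul_one]
    exact h2
  unfold cind
  rw [abs_le]
  split_ifs
  · constructor <;> linarith
  · constructor <;> linarith

theorem dif [Fintype H] [Fintype Γ] (φ : Δ →* H) (q : Δ →* Γ) (hq : Function.Surjective q)
    (θ : Γ →* H) (hθ : θ.comp q = φ) (h : H → ℂ) (z : H) (σ : Δ) :
    h (φ σ * z * (φ σ)⁻¹) - av φ h (φ σ * z * (φ σ)⁻¹) =
      ∑ y : H, h y * (cind (fun g : Γ => θ g * z * (θ g)⁻¹) y (q σ) : ℂ) := by
  have hs : ∀ x : H, h x = ∑ y : H, h y * (if x = y then 1 else 0) := by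
    intro x
    rw [Finset.sum_eq_single x]
    · rw [if_pos rfl, mul_one]
    · intro y _ hy
      rw [if_neg (Ne.symm hy), mul_zero]
    · intro hx
      exact absurd (Finset.mem_univ x) hx
  rw [av_conj, av_fac φ q hq θ hθ]
  have e1 : φ σ = θ (q σ) := by rw [← hθ]; rfl
  rw [e1]
  have e2 : ∑ g : Γ, h (θ g * z * (θ g)⁻¹) =
      ∑ y : H, h y * ∑ g : Γ, (if θ g * z * (θ g)⁻¹ = y then 1 else 0) := by
    rw [Finset.sum_congr rfl fun g _ => hs (θ g * z * (θ g)⁻¹), Finset.sum_comm]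
    exact Finset.sum_congr rfl fun y _ => by rw [Finset.mul_sum]
  rw [hs (θ (q σ) * z * (θ (q σ))⁻¹), e2, Finset.mul_sum, ← Finset.sum_sub_distrib]
  refine Finset.sum_congr rfl fun y _ => ?_
  unfold cind
  push_cast
  have e3 : ∀ P : Prop, (((if P then (1 : ℝ) else 0) : ℝ) : ℂ) = if P then 1 else 0 := by
    intro P
    split_ifs <;> simp
  simp only [e3]
  ring

end H77.GL
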